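import Mathlib
import Pool.Agent.Lib.H1M.PP3.D_H13V_StmP
import Pool.Agent.Lib.H1M.PP3.M174
import Pool.Agent.Lib.H1M.PP3.M177
import Pool.Agent.Lib.H1M.PP3.M205
import Pool.Agent.Lib.H1M.PP3.M215

/-!
# The structure of Tate-Shafarevich groups in cyclic p-extensions, the inverse theorem, and the p-part of the Birch and Swinnerton-Dyer conjecture

F is an imaginary quadratic field of class number one, E an elliptic curve over the rationals with complex multiplication (over F)
by an order of F, given by a global minimal equation W (CM F W; all 13 orders of class number one).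
p ≥ 5 is a prime number of good reduction: it does not divide the discriminant of W.

THE STRUCTURE THEOREM (sha: H13V.ShaThmP). M ⊆ K' ⊆ K are number fields, K/M is Galois with cyclic group of order p^(n+t), n, t ≥ 1, and K' is
the subfield of degree p^n over M (H13V.CycT); M is arbitrary. Hypotheses (H13V.HypP): p is unramified in K; at the primes of FM which divide the
discriminant of W and at which W has good reduction over FM, p does not divide the number of points of the reduction (OkM); over K' the p-part of
the conjecture is trivial (BSDPG p W K': the p-Selmer group and the p-torsion of the Tate-Shafarevich group are zero, the group of points is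
finite of order prime to p, the L-series of W over K' continues to Re s > 1/2, does not vanish at 1, and the analytic order of the
Tate-Shafarevich group is a p-adic unit); for the primes w of K' which do not divide the discriminant of W, are ramified in K, and such that p divides
the number of points of W over the residue field of w (H13T.AnR): the residue field of w is larger than the residue field of M at the prime below w
(the residue degree of w over M is > 1), and the square of the ramification index e_w of w divides the number of points of W over the residue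
field of w.
Conclusions over K (H13V.AtKT): E(K) is finite of order prime to p; the p-primary part of the Tate-Shafarevich group of E over K is isomorphic to the
product over these w of (ℤ/e_w)^2; the L-series of W over K (Mathlib: WeierstrassCurve.LSeries) converges absolutely for Re s > 3/2, continues to
Re s > 1/2 and does not vanish at 1; the analytic order shaG of the Tate-Shafarevich group (the number predicted by the refined conjecture) has the
valuation of the order of the p-primary part of the Tate-Shafarevich group, for all valuations above p: the rank part and the p-part of the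
refined conjecture hold over K.

THE INVERSE THEOREM (inv: H57TX.InvP). If the analytic order of the Tate-Shafarevich group over the rationals is a p-adic unit (AnUnitG p W ℚ; true for
all but finitely many p if L(W/ℚ, 1) is not zero: almost; for y^2 + y = x^3 true for all p ≥ 5), then for all m ≥ 1, all finite abelian groups A killed
by p^m and all X there is a totally real cyclic extension K/ℚ of degree p^(m+1), of absolute discriminant larger than X, such that E(K) is finite of
order prime to p, the p-primary part of the Tate-Shafarevich group of E over K is isomorphic to A × A, L(E/K, 1) is not zero and the p-part of the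
refined conjecture holds over K. The same with Galois extensions K/F of p-power degree with a given finite p-group H contained in Gal(K/F), and
(A × A)^r, r ≥ 1, in place of A × A (invH), and with fields K with a real place such that FK is Galois over ℚ, of p-power degree over F, and H is a
subquotient of Gal(FK/F) (invR).
-/

open NumberField IsDedekindDomain WeierstrassCurve H55P H55K.TQ H13P

namespace Pool.Agent.Results.MP_f50388_nt.ShaStructure

/-- W is a global minimal equation of an elliptic curve over the rationals with complex multiplication by the order of conductor f of F,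
of class number one (H55Y.Cond): its period lattice is a multiple of the lattice of this order. -/
def CM (F : Type) [Field F] [NumberField F] [IQ F] (W : WeierstrassCurve ℤ) : Prop :=
  W.Δ ≠ 0 ∧ H13D.MinZ W ∧ ∃ (f : ℕ) (Om : ℂ), H55Y.Cond F f ∧
    H55Y.PerO F f (-(eF F (W⁄(𝓞 F)).c₄) / 48) (-(eF F (W⁄(𝓞 F)).c₆) / 864) Om

/-- The conclusions for the prime p. -/
structure AtP (F : Type) [Field F] [NumberField F] [IQ F] (p : ℕ) (W : WeierstrassCurve ℤ) : Prop where
  sha : H13V.ShaThmP F p W
  inv : AnUnitG p W ℚ → H57TX.InvP p W
  invH : AnUnitG p W ℚ → H57TX.InvHP F p W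
  invR : AnUnitG p W ℚ → H57TX.InvRealP F p W

theorem result :
    (∀ (F : Type) [Field F] [NumberField F] [IQ F] (W : WeierstrassCurve ℤ), CM F W →
      (∀ p : ℕ, p.Prime → 5 ≤ p → ¬ (p : ℤ) ∣ W.Δ → AtP F p W) ∧
      (LNz W ℚ → {p : ℕ | p.Prime ∧ ¬ AnUnitG p W ℚ}.Finite)) ∧
    CM H55B.F EZ ∧ ∀ p : ℕ, p.Prime → 5 ≤ p → AnUnitG p EZ ℚ := by
  have hcub : ∀ (F : Type) [Field F] [NumberField F] [IQ F], ∀ w : 𝓞 F, w ^ 2 + w + 1 = 0 → ∀ n : ℤ, n ≠ 0 →
      ∃ κ : 𝓞 F → 𝓞 F, H55W.PRC (𝓞 F) 3 n (3 * n) (27 * n) κ := fun F _ _ _ w hw n hn => H55W.cub_F F IQ.deg w hw n hn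
  refine ⟨fun F _ _ _ W' hC => ?_, ⟨by rw [H55W.ezm_disc]; norm_num, H55W.ezm_min, ?_⟩, fun p hp h5 => H55K.TQ.ex_an hp h5⟩
  · have hC' : H19A.CM F W' := hC
    have hat : ∀ p : ℕ, p.Prime → 5 ≤ p → ¬ (p : ℤ) ∣ W'.Δ → (AnUnitG p W' ℚ → H57TX.ExistP F p W' ∧ H57TX.ExistHP F p W' ∧
        H57TX.ExistRealP F p W') → AtP F p W' := by
      intro p hp h5 hd hE
      have hT := H41P.shaP_all F W' hC' p hp h5 hd
      exact ⟨hT, fun hA => H57TX.invP_of hp (by omega) hT (hE hA).1, fun hA => H57TX.invHP_of hT (hE hA).2.1,
        fun hA => H57TX.invRealP_of hT (hE hA).2.2⟩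
    rcases H55Y.y5_cases hC (hcub F) with ⟨Om, hper⟩ | ⟨W, Om, m, ψ, kap, e, t, u, lam, hΔ, hper, h⟩
    · obtain ⟨hΔ, hmin, -⟩ := hC
      obtain ⟨ψ, hH⟩ := H55W.base_all0 (hcub F) W' Om hΔ hper hmin
      refine ⟨fun p hp h5 hd => ?_, fun hL => ?_⟩
      · have hP := H55W.prime_simple hΔ hper hp h5 hd
        exact hat p hp h5 hd fun hA => ⟨H57TX.existP_main hH hP hA, H57TX.existHP_main hH hP hA, H57TX.existRealP_main hH hP hA⟩
      · refine ((prime_almost (W'⁄(𝓞 F)) hH.data.ell).union (an_almost hH hL)).subset fun p hp => ?_
        obtain ⟨h1, h2⟩ := hp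
        by_cases h3 : PrimeH F (W'⁄(𝓞 F)) p
        · exact Or.inr ⟨h1, fun h4 => h2 h4⟩
        · exact Or.inl ⟨h1, h3⟩
    · refine ⟨fun p hp h5 hd => ?_, fun hL => ?_⟩
      · have hP0 := H55W.prime_simple hΔ hper hp h5 fun h' => hd (H55Y.y6_dvd h hp h')
        have hP := (H28I.tw_prime h).2 hP0
        exact hat p hp h5 hd fun hA => ⟨H57TX.existP_iso h hP hA, H57TX.existHP_iso h hP hA, H57TX.existRealP_iso h hP hA⟩
      · exact (H28I.almost_iso h hL).subset fun p hp => ⟨hp.1, fun h4 => hp.2 h4.2⟩
  · obtain ⟨Om, hper⟩ := H55W.ezm_per
    refine ⟨1, Om, Or.inl rfl, hper.ne, LF H55B.F, fun z => ?_, hper.g2, hper.g3⟩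
    rw [H55P.mem_LF]
    constructor
    · rintro ⟨y, rfl⟩
      exact ⟨0, y, by rw [Int.cast_zero, zero_add, Nat.cast_one, one_mul]⟩
    · rintro ⟨a, y, rfl⟩
      exact ⟨(a : 𝓞 H55B.F) + y, by rw [map_add, map_intCast, Nat.cast_one, one_mul]⟩

end Pool.Agent.Results.MP_f50388_nt.ShaStructure
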