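import Pool.Agent.Lib.H1M.PP3.M192

/-!
# The p-part of the Birch and Swinnerton-Dyer conjecture in cyclotomic towers over nonabelian number fields, p supersingular

F is an imaginary quadratic field of class number one, W a global minimal equation of an elliptic curve over the rationals with complex
multiplication (over F) by an order of F (CM F W; all 13 orders of class number one). p ≥ 5 is a prime number which is inert in F
(InertQ F p) and does not divide the discriminant of W.

TowerThmO F p W (field tower of AtP): M is any number field such that p is unramified in M, the residue fields of M above p have p or p^2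
elements (SplitM p M), (OK) holds over FM (OkM: at every prime of FM which divides the discriminant of W and at which W has good reduction, p
does not divide the number of points of the reduction of the minimal model over the residue field), and (U) holds over M (BSDPG): the
p-Selmer group of W over M is zero (conditions on inertia only), the p-torsion of the Tate-Shafarevich group is zero, W(M) is finite of
order prime to p, L(W/M, 1) is not zero and its algebraic part (with the order of the group of points) is a p-adic unit.
M_n is the n-th layer of the cyclotomic Z_p-extension of M (Layer p n M K: K = M_n). Then for all n: L(W/M_n, s) continues to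
Re s > 1/2 and does not vanish at s = 1, W(M_n) is finite of order prime to p, the p-primary part of the Tate-Shafarevich group of W over
M_n is finite of order p^([M:ℚ] (J_1 + ... + J_n)), J_k the integer part of p^k / (p + 1), and the p-part of the refined conjecture holds:
the analytic order of the Tate-Shafarevich group and this order have the same valuation in every valuation ring of ℂ above p.

exist, real: if the analytic part (AnUnitG) holds over the rationals, then for every p-group G there is such a field M, Galois over F of
p-power degree with G in Gal(M/F) (exist), and there is such a field M with a real place, with G a subquotient of Gal(FM/F) (real).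
If L(W/ℚ, 1) is not zero then AnUnitG p W ℚ holds for all but finitely many p; for y^2 + y = x^3 for all p ≥ 5. Every layer exists
(LayerEx).
-/

open NumberField IsDedekindDomain WeierstrassCurve H55P H55K.TQ

namespace Pool.Agent.Results.MP_f50388_nt.SupersingularTowers

/-- W is a global minimal equation of an elliptic curve over the rationals with complex multiplication by the order of conductor f of F,
of class number one (H55Y.Cond): its period lattice is a multiple of the lattice of this order. -/
def CM (F : Type) [Field F] [NumberField F] [IQ F] (W : WeierstrassCurve ℤ) : Prop :=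
  W.Δ ≠ 0 ∧ H13D.MinZ W ∧ ∃ (f : ℕ) (Om : ℂ), H55Y.Cond F f ∧
    H55Y.PerO F f (-(eF F (W⁄(𝓞 F)).c₄) / 48) (-(eF F (W⁄(𝓞 F)).c₆) / 864) Om

/-- The conclusions for the prime p. -/
structure AtP (F : Type) [Field F] [NumberField F] [IQ F] (p : ℕ) (W : WeierstrassCurve ℤ) : Prop where
  tower : H55G.TowerThmO F p W
  exist : AnUnitG p W ℚ → H55G.ExistO F p W
  real : AnUnitG p W ℚ → H55G.ExistRealO F p W

theorem result :
    (∀ (F : Type) [Field F] [NumberField F] [IQ F] (W : WeierstrassCurve ℤ), CM F W →
      (∀ p : ℕ, p.Prime → 5 ≤ p → H19A.InertQ F p → ¬ (p : ℤ) ∣ W.Δ → AtP F p W) ∧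
      (LNz W ℚ → {p : ℕ | p.Prime ∧ ¬ AnUnitG p W ℚ}.Finite)) ∧
    (∀ p : ℕ, p.Prime → 5 ≤ p → H19A.LayerEx p) ∧
    CM H55B.F EZ ∧ ∀ p : ℕ, p.Prime → 5 ≤ p → AnUnitG p EZ ℚ := by
  obtain ⟨h1, h2, h3, h4⟩ := H55G.resultO
  refine ⟨fun F _ _ _ W hC => ?_, h2, h3, h4⟩
  obtain ⟨h5, h6⟩ := h1 F W hC
  refine ⟨fun p hp h5' hI hd => ?_, h6⟩
  obtain ⟨a, b, c⟩ := h5 p hp h5' hI hd
  exact ⟨a, b, c⟩

end Pool.Agent.Results.MP_f50388_nt.SupersingularTowers
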