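import Mathlib
import Pool.Agent.Lib.H1M.TP.M078

/-!
# The 3-part of the conjecture of Birch and Swinnerton-Dyer for the curves y^2 = x^3 - d^2 over the subfields of
# 3-extensions of the third cyclotomic field unramified above 3: exact criterion and relative form

F is the third cyclotomic field, O its ring of integers, Ec d the curve y^2 = x^3 - d^2 (for the d considered here
this equation is a global minimal model over the rationals and dx/(2y) is the invariant differential), Ei d the curve
y^2 = x^3 + 27 d^2 (isogenous to Ec d by an isogeny of degree 3 over the rationals, and isomorphic to Ec d over fields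
containing F). H16C.Sha is the Tate-Shafarevich group (continuous cocycles of the absolute Galois group with values in
the points over the algebraic closure which are coboundaries over all completions, modulo coboundaries).

(1) Exact criterion. Let K be a number field contained in a Galois extension L of F of 3-power degree,
    unramified at the primes above 3 (Cls3T K; L/F may be ramified at all other primes, its Galois group may be
    any 3-group, K need not contain F, need not be Galois over any subfield, may have real places) and let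
    d be admissible (AdmAt d K). Then CritD d K: the L-function of Ec d over K continues analytically to
    Re s > 1/2; the analytic order of the Tate-Shafarevich group (the order predicted by the formula of Birch and
    Swinnerton-Dyer in rank 0) is integral above 3; the following are equivalent: (a) AlgTriv: the rank over K is 0
    and the Tate-Shafarevich groups over K of Ec d and of Ei d have no element of order 3; (b) the value at 1 is not 0
    and the analytic order is a 3-adic unit; (c) all primes of K not above 6 which are ramified over the rationals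
    have norm 7 modulo 12 (if K contains F, Ei d can be omitted in (a)). In this case BSD3 holds: the order of
    vanishing at 1 is the rank, the 3-primary part of the Tate-Shafarevich group of Ec d over K is finite and its
    order has the same valuation as the analytic order for every valuation above 3; the group
    of K-rational points is finite of order prime to 3. In the other case the analytic order has positive
    valuation for every valuation above 3.
(2) Relative form. Let M/F be an extension of odd degree (not necessarily Galois), unramified above 3, in which the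
    valuations of 2 are odd (BaseF M), K a subfield, containing M, of a Galois extension L of M of 3-power degree
    unramified over M above 3 (RelT M K), and d admissible. Then CritRel d M K: for every valuation above 3 the
    analytic orders over M and K are integral, and the one over K is a unit if and only if the one
    over M is a unit and all primes of K not above 6 ramified over M have norm 7 modulo 12; the
    rank is 0 and the Tate-Shafarevich group has no element of order 3 over K if and only if this is so over M and the
    same condition on primes holds. Nothing is assumed on the L-values, the ranks and the Tate-Shafarevich groups over M.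
(3) d = 1 is admissible for all K. For K as in (1): d is admissible if and only if d is 1 or -1 modulo 9, has no cubed
    factor, and all odd prime divisors of d are 7 modulo 12 and do not divide the discriminant of K; there are
    infinitely many admissible prime numbers d.
(4) Galois extensions K of the rationals of 3-power degree with discriminant prime to 3 are in the class of (1), and the
    condition on primes is that all odd prime divisors of the discriminant are 7 modulo 12.
(5) Fields K of degree 3^k contained in a field generated by m-th roots of unity, m prime to 3, and cube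
    roots of integers which are 1 or -1 modulo 9 are in the class of (1).
(6) Pure cubic fields generated by a cube root of n, n > 1 without cubed prime factors, 1 or 8 modulo 9, are in the
    class of (1), and the condition on primes is that all odd prime divisors of n are 7 modulo 12.
(7) The composita M of F with Galois extensions of the rationals of odd degree with discriminant prime to 3
    satisfy BaseF M.
(8) Every K as in (1) is contained in a field K' as in (1) for which the condition on primes does not hold.
(9) Every finite 3-group is a subgroup of Gal(K/F) for some Galois extension K of F as in (1) for which the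
    condition on primes holds.
-/

open NumberField IsDedekindDomain Polynomial

namespace Pool.Agent.Results.MP_f50388_nt.ThreePartExact

/-- The third cyclotomic field. -/
abbrev F : Type := CyclotomicField 3 ℚ

/-- The ring of integers of F. -/
abbrev O : Type := 𝓞 F

/-! ### The fields -/

/-- L is a Galois extension of F of 3-power degree. -/
def ThreeExt (L : Type) [Field L] [Algebra F L] : Prop :=
  IsGalois F L ∧ ∃ k : ℕ, Module.finrank F L = 3 ^ k

/-- L/F is unramified at the primes above 3. -/
def Unr3 (L : Type) [Field L] [NumberField L] [Algebra F L] : Prop :=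
  ∀ w : HeightOneSpectrum (𝓞 L), (3 : 𝓞 L) ∈ w.asIdeal → w.asIdeal.ramificationIdx O = 1

/-- K (which need not contain F) is contained in a Galois extension L of F of 3-power degree which is unramified
at the primes above 3. -/
def Cls3T (K : Type) [Field K] [NumberField K] : Prop :=
  ∃ (L : Type) (_ : Field L) (_ : NumberField L) (_ : Algebra F L) (_ : Algebra K L),
    ThreeExt L ∧ Unr3 L

/-- The valuations of 2 are odd. -/
def OddTwo (K : Type) [Field K] [NumberField K] : Prop :=
  ∀ w : HeightOneSpectrum (𝓞 K), (2 : 𝓞 K) ∈ w.asIdeal →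
    ∃ e : ℕ, Odd e ∧ w.valuation K (2 : K) = WithZero.exp (-(e : ℤ))

/-- The base fields of the relative theorem: M/F of odd degree, unramified above 3, and the valuations of 2
are odd. -/
def BaseF (M : Type) [Field M] [NumberField M] [Algebra F M] : Prop :=
  Odd (Module.finrank F M) ∧ Unr3 M ∧ OddTwo M

/-- K is contained in a Galois extension L of M of 3-power degree which is unramified at the primes above 3. -/
def RelT (M K : Type) [Field M] [NumberField M] [Field K] [NumberField K] [Algebra M K] : Prop :=
  ∃ (L : Type) (_ : Field L) (_ : NumberField L) (_ : Algebra M L) (_ : Algebra K L)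
    (_ : IsScalarTower M K L), IsGalois M L ∧ (∃ k : ℕ, Module.finrank M L = 3 ^ k) ∧
      ∀ w : HeightOneSpectrum (𝓞 L), (3 : 𝓞 L) ∈ w.asIdeal → w.asIdeal.ramificationIdx (𝓞 M) = 1

/-- Every prime of K, not above 6, which is ramified over the rationals has a norm congruent to 7 modulo 12. -/
def GoodRam3 (K : Type) [Field K] [NumberField K] : Prop :=
  ∀ w : HeightOneSpectrum (𝓞 K), (6 : 𝓞 K) ∉ w.asIdeal → w.asIdeal.ramificationIdx ℤ ≠ 1 →
    Ideal.absNorm w.asIdeal % 12 = 7

/-- The primes of K not above 6 and ramified over M have norm 7 modulo 12. -/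
def GoodRel (M K : Type) [Field M] [NumberField M] [Field K] [NumberField K] [Algebra M K] : Prop :=
  ∀ w : HeightOneSpectrum (𝓞 K), (6 : 𝓞 K) ∉ w.asIdeal → w.asIdeal.ramificationIdx (𝓞 M) ≠ 1 →
    Ideal.absNorm w.asIdeal % 12 = 7

/-- The integers d: d is 1 or -1 modulo 9 and not divisible by the cube of a nonunit; the primes of K not above 2 which
divide d are unramified over the rationals and have norm 7 modulo 12. -/
def AdmAt (d : ℤ) (K : Type) [Field K] [NumberField K] : Prop :=
  ((9 : ℤ) ∣ d - 1 ∨ (9 : ℤ) ∣ d + 1) ∧ (∀ l : ℤ, l ^ 3 ∣ d → IsUnit l) ∧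
  ∀ w : HeightOneSpectrum (𝓞 K), (d : 𝓞 K) ∈ w.asIdeal → (2 : 𝓞 K) ∉ w.asIdeal →
    w.asIdeal.ramificationIdx ℤ = 1 ∧ Ideal.absNorm w.asIdeal % 12 = 7

/-- K has degree a power of 3 and is contained in a number field generated by m-th roots of unity (m prime to 3)
and cube roots of integers which are 1 or -1 modulo 9. -/
def Fam3 (K : Type) [Field K] [NumberField K] : Prop :=
  (∃ k : ℕ, Module.finrank ℚ K = 3 ^ k) ∧
  ∃ (m : ℕ) (N : Type) (_ : Field N) (_ : NumberField N) (_ : Algebra K N) (S : Set N),
    ¬ 3 ∣ m ∧ Algebra.adjoin ℚ S = ⊤ ∧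
    ∀ s ∈ S, s ^ m = 1 ∨ ∃ a : ℤ, ((9 : ℤ) ∣ a - 1 ∨ (9 : ℤ) ∣ a + 1) ∧ s ^ 3 = (a : N)

/-! ### The curves, the rank and the Tate-Shafarevich groups -/

/-- The elliptic curve y^2 = x^3 - d^2 over the rationals. -/
def Ec (d : ℤ) : WeierstrassCurve ℚ := ⟨0, 0, 0, 0, -(d : ℚ) ^ 2⟩

/-- The elliptic curve y^2 = x^3 + 27 d^2 over the rationals, isogenous to Ec d by an isogeny of degree 3. -/
def Ei (d : ℤ) : WeierstrassCurve ℚ := ⟨0, 0, 0, 0, 27 * (d : ℚ) ^ 2⟩

/-- The Tate-Shafarevich group of W over K has no element of order 3. -/
def ShaZ (K : Type) [Field K] [NumberField K] (W : WeierstrassCurve K) : Prop :=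
  ∀ z : H16C.Sha W.toAffine (AlgebraicClosure K), (3 : ℕ) • z = 0 → z = 0

open Classical in
/-- The rank over K is 0. -/
def RankZ (K : Type) [Field K] (W : WeierstrassCurve K) : Prop :=
  Module.finrank ℤ W.toAffine.Point = 0

/-- The rank of y^2 = x^3 - d^2 over K is 0, and the Tate-Shafarevich groups over K of this curve and of the 3-isogenous
curve y^2 = x^3 + 27 d^2 have no element of order 3. -/
def AlgTriv (d : ℤ) (K : Type) [Field K] [NumberField K] : Prop :=
  RankZ K ((Ec d).baseChange K) ∧ ShaZ K ((Ec d).baseChange K) ∧ ShaZ K ((Ei d).baseChange K)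

/-- The rank of y^2 = x^3 - d^2 over K is 0 and its Tate-Shafarevich group has no element of order 3. -/
def AlgTriv1 (d : ℤ) (K : Type) [Field K] [NumberField K] : Prop :=
  RankZ K ((Ec d).baseChange K) ∧ ShaZ K ((Ec d).baseChange K)

/-- The 3-primary part of the Tate-Shafarevich group of W over K. -/
def Sha3 (K : Type) [Field K] [NumberField K] (W : WeierstrassCurve K) : Type _ :=
  {z : H16C.Sha W.toAffine (AlgebraicClosure K) // ∃ n : ℕ, (3 ^ n : ℕ) • z = 0}

/-! ### The formula of Birch and Swinnerton-Dyer -/

/-- The curve over the completion of K at w. -/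
noncomputable def Ew (d : ℤ) (K : Type) [Field K] [NumberField K] (w : HeightOneSpectrum (𝓞 K)) :
    WeierstrassCurve (w.adicCompletion K) :=
  ((Ec d).baseChange K).baseChange (w.adicCompletion K)

/-- A minimal Weierstrass equation over the completion of K at w (the one of Mathlib). -/
noncomputable def Wm (d : ℤ) (K : Type) [Field K] [NumberField K] (w : HeightOneSpectrum (𝓞 K)) :
    WeierstrassCurve (w.adicCompletion K) :=
  (Ew d K w).minimal (w.adicCompletionIntegers K)

/-- The points with nonsingular reduction of a Weierstrass equation with integral coefficients: zero, the points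
which reduce to zero (1 < v x), and the points at which the two partial derivatives do not both reduce to 0. -/
def NonsRed {K : Type} [Field K] [NumberField K] (w : HeightOneSpectrum (𝓞 K))
    (W : WeierstrassCurve (w.adicCompletion K)) : Set W.toAffine.Point :=
  {P | P = 0 ∨ ∃ (x y : w.adicCompletion K) (h : W.toAffine.Nonsingular x y),
    P = WeierstrassCurve.Affine.Point.some x y h ∧
      (1 < Valued.v x ∨ 1 ≤ Valued.v (3 * x ^ 2 + 2 * W.a₂ * x + W.a₄ - W.a₁ * y) ∨
        1 ≤ Valued.v (2 * y + W.a₁ * x + W.a₃))}

open Classical in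
/-- The Tamagawa number: the index of the subgroup of points with nonsingular reduction of the minimal
model. -/
noncomputable def cw (d : ℤ) (K : Type) [Field K] [NumberField K] (w : HeightOneSpectrum (𝓞 K)) : ℕ :=
  (AddSubgroup.closure (NonsRed w (Wm d K w))).index

/-- The product of the Tamagawa numbers and the numbers |Δmin/Δ|^(1/12) (normalised absolute values;
Δ is the discriminant of the equation y^2 = x^3 - d^2). -/
noncomputable def CEK (d : ℤ) (K : Type) [Field K] [NumberField K] : ℝ :=
  ∏ᶠ w : HeightOneSpectrum (𝓞 K), (cw d K w : ℝ) * ‖(Wm d K w).Δ / (Ew d K w).Δ‖ ^ (1 / 12 : ℝ)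

open Classical in
/-- The number of torsion points over K. -/
noncomputable def torsd (d : ℤ) (K : Type) [Field K] [NumberField K] : ℕ :=
  Nat.card {P : ((Ec d).baseChange K).toAffine.Point // IsOfFinAddOrder P}

/-- The real period: the smallest positive real number in the period lattice. -/
noncomputable def Omr (L : PeriodPair) : ℝ := sInf {x : ℝ | 0 < x ∧ (x : ℂ) ∈ L.lattice}

/-- Twice the area of a period parallelogram. -/
noncomputable def Om (L : PeriodPair) : ℝ := 2 * |L.ω₁.re * L.ω₂.im - L.ω₁.im * L.ω₂.re|

/-- The analytic order of the Tate-Shafarevich group of y^2 = x^3 - d^2 over K predicted by the formula of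
Birch and Swinnerton-Dyer in rank 0 (it is 0 if L1 = 0); L1 is the value of the L-function at 1, torsd the
number of torsion points, L the period lattice of dx/(2y), Omr its real period, Om twice the area of a
period parallelogram, CEK the product of the Tamagawa numbers and the discriminant factors. -/
noncomputable def shaD (d : ℤ) (K : Type) [Field K] [NumberField K] (L : PeriodPair) (L1 : ℂ) : ℂ :=
  L1 * (Real.sqrt |(NumberField.discr K : ℝ)| : ℝ) * (torsd d K : ℂ) ^ 2 /
    ((Omr L : ℂ) ^ NumberField.InfinitePlace.nrRealPlaces K *
      (Om L : ℂ) ^ NumberField.InfinitePlace.nrComplexPlaces K * ((CEK d K : ℝ) : ℂ))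

/-- Λ is the analytic continuation to Re s > 1/2 of the L-function of y^2 = x^3 - d^2 over K. -/
def ContD (d : ℤ) (K : Type) [Field K] [NumberField K] (Λ : ℂ → ℂ) : Prop :=
  AnalyticOnNhd ℂ Λ {s | 1 / 2 < s.re} ∧
    ∀ s : ℂ, 3 / 2 < s.re →
      LSeriesSummable (fun n => ((((Ec d).baseChange K).LFunction n : ℤ) : ℂ)) s ∧
      Λ s = ((Ec d).baseChange K).LSeries s

/-- z is integral above 3. -/
def Int3 (z : ℂ) : Prop := ∀ V : ValuationSubring ℂ, V.valuation 3 < 1 → V.valuation z ≤ 1

/-- z is a 3-adic unit: a unit for all valuations of the complex numbers above 3. -/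
def Unit3 (z : ℂ) : Prop := ∀ A : ValuationSubring ℂ, A.valuation 3 < 1 → A.valuation z = 1

/-- Positive valuation for every valuation above 3. -/
def Non3 (z : ℂ) : Prop := ∀ V : ValuationSubring ℂ, V.valuation 3 < 1 → V.valuation z < 1

open Classical in
/-- The 3-part of the conjecture of Birch and Swinnerton-Dyer for y^2 = x^3 - d^2 over K: the order of vanishing at 1 is the
rank, the 3-primary part of the Tate-Shafarevich group is finite, and its order has the valuation of the analytic order for
every valuation above 3. -/
def BSD3 (d : ℤ) (K : Type) [Field K] [NumberField K] (Λ : ℂ → ℂ) (L : PeriodPair) : Prop :=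
  analyticOrderAt Λ 1 = (Module.finrank ℤ ((Ec d).baseChange K).toAffine.Point : ℕ∞) ∧
    Finite (Sha3 K ((Ec d).baseChange K)) ∧
    ∀ V : ValuationSubring ℂ, V.valuation 3 < 1 →
      V.valuation (shaD d K L (Λ 1)) = V.valuation ((Nat.card (Sha3 K ((Ec d).baseChange K)) : ℕ) : ℂ)

/-- The exact criterion. A period lattice L of dx/(2y) exists; the L-function of y^2 = x^3 - d^2 over K continues
analytically to Re s > 1/2; the analytic order of the Tate-Shafarevich group is 3-integral; it is a 3-adic unit
(and the value at 1 is not 0) if and only if the rank is 0 and the Tate-Shafarevich groups of the two curves have no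
element of order 3, if and only if the primes of K not above 6 ramified over the rationals have norm 7 modulo 12 (the
second curve can be omitted if K contains the cube roots of unity); if this is so then the 3-part of the conjecture of Birch
and Swinnerton-Dyer holds and the group of points is finite of order prime to 3, and otherwise the analytic order of the
Tate-Shafarevich group has positive valuation for every valuation above 3. -/
def CritD (d : ℤ) (K : Type) [Field K] [NumberField K] : Prop :=
  (∃ L : PeriodPair, L.g₂ = 0 ∧ L.g₃ = 4 * (d : ℂ) ^ 2) ∧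
  ∃ Λ : ℂ → ℂ, ContD d K Λ ∧
    ∀ L : PeriodPair, L.g₂ = 0 → L.g₃ = 4 * (d : ℂ) ^ 2 →
      Int3 (shaD d K L (Λ 1)) ∧
      (AlgTriv d K ↔ Λ 1 ≠ 0 ∧ Unit3 (shaD d K L (Λ 1))) ∧
      (AlgTriv d K ↔ GoodRam3 K) ∧
      ((∃ x : K, x ^ 2 + x + 1 = 0) → (AlgTriv1 d K ↔ GoodRam3 K)) ∧
      (GoodRam3 K → BSD3 d K Λ L ∧ Finite ((Ec d).baseChange K).toAffine.Point ∧
        ¬ 3 ∣ Nat.card ((Ec d).baseChange K).toAffine.Point) ∧
      (¬ GoodRam3 K → Non3 (shaD d K L (Λ 1)))

/-- The relative criterion for K/M: for every valuation above 3 the analytic orders of the Tate-Shafarevich groups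
over M and over K are integral, and the one over K is a unit if and only if the one over M is a unit and the primes
of K not above 6 ramified over M have norm 7 modulo 12; the rank is 0 and the Tate-Shafarevich group has no element of
order 3 over K if and only if this is so over M and the same condition on primes holds. -/
def CritRel (d : ℤ) (M K : Type) [Field M] [NumberField M] [Field K] [NumberField K] [Algebra M K] : Prop :=
  ∃ ΛM ΛK : ℂ → ℂ, ContD d M ΛM ∧ ContD d K ΛK ∧
    (∀ L : PeriodPair, L.g₂ = 0 → L.g₃ = 4 * (d : ℂ) ^ 2 →
      ∀ V : ValuationSubring ℂ, V.valuation 3 < 1 →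
        V.valuation (shaD d M L (ΛM 1)) ≤ 1 ∧ V.valuation (shaD d K L (ΛK 1)) ≤ 1 ∧
        (V.valuation (shaD d K L (ΛK 1)) = 1 ↔
          V.valuation (shaD d M L (ΛM 1)) = 1 ∧ GoodRel M K)) ∧
    (AlgTriv1 d K ↔ AlgTriv1 d M ∧ GoodRel M K)

/-! ### The theorem -/

theorem baseF_iff (M : Type) [Field M] [NumberField M] [Algebra F M] : BaseF M ↔ H35Z.BaseF M :=
  ⟨fun h => ⟨h.1, h.2.1, h.2.2⟩, fun h => ⟨h.odd, h.unr, h.two⟩⟩

theorem result :
    (∀ (K : Type) [Field K] [NumberField K], Cls3T K → ∀ d : ℤ, AdmAt d K → CritD d K) ∧
    (∀ (M K : Type) [Field M] [NumberField M] [Algebra F M] [Field K] [NumberField K] [Algebra M K],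
      BaseF M → RelT M K → ∀ d : ℤ, AdmAt d K → CritRel d M K) ∧
    ((∀ (K : Type) [Field K] [NumberField K], AdmAt 1 K) ∧
      ∀ (K : Type) [Field K] [NumberField K], Cls3T K →
        (∀ d : ℤ, AdmAt d K ↔ ((9 : ℤ) ∣ d - 1 ∨ (9 : ℤ) ∣ d + 1) ∧ (∀ l : ℤ, l ^ 3 ∣ d → IsUnit l) ∧
          ∀ p : ℕ, p.Prime → p ≠ 2 → (p : ℤ) ∣ d → p % 12 = 7 ∧ ¬ (p : ℤ) ∣ NumberField.discr K) ∧
        ∀ B : ℕ, ∃ l : ℕ, B < l ∧ l.Prime ∧ AdmAt (l : ℤ) K) ∧
    (∀ (K : Type) [Field K] [NumberField K], IsGalois ℚ K → (∃ k : ℕ, Module.finrank ℚ K = 3 ^ k) →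
      ¬ (3 : ℤ) ∣ NumberField.discr K → Cls3T K ∧
        (GoodRam3 K ↔ ∀ p : ℕ, p.Prime → p ≠ 2 → (p : ℤ) ∣ NumberField.discr K → p % 12 = 7)) ∧
    (∀ (K : Type) [Field K] [NumberField K], Fam3 K → Cls3T K) ∧
    (∀ (K : Type) [Field K] [NumberField K] (n : ℕ) (t : K), Module.finrank ℚ K = 3 →
      t ^ 3 = (n : K) → 1 < n → (∀ p : ℕ, p.Prime → ¬ p ^ 3 ∣ n) → (n % 9 = 1 ∨ n % 9 = 8) →
      Cls3T K ∧ (GoodRam3 K ↔ ∀ p : ℕ, p.Prime → p ≠ 2 → p ∣ n → p % 12 = 7)) ∧
    (∀ (K₀ M : Type) [Field K₀] [NumberField K₀] [Field M] [NumberField M] [Algebra F M]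
      [Algebra K₀ M], IsGalois ℚ K₀ → Odd (Module.finrank ℚ K₀) →
      ¬ (3 : ℤ) ∣ NumberField.discr K₀ → Module.finrank ℚ M = 2 * Module.finrank ℚ K₀ → BaseF M) ∧
    (∀ (K : Type) [Field K] [NumberField K], Cls3T K → ∃ (K' : Type) (_ : Field K')
      (_ : NumberField K') (_ : Algebra K K'), Cls3T K' ∧ ¬ GoodRam3 K') ∧
    (∀ (H : Type) [Group H] [Finite H] (k : ℕ), Nat.card H = 3 ^ k →
      ∃ (K : Type) (_ : Field K) (_ : NumberField K) (_ : Algebra F K),
        ThreeExt K ∧ Unr3 K ∧ GoodRam3 K ∧ ∃ φ : H →* (K ≃ₐ[F] K), Function.Injective φ) := by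
  obtain ⟨-, -, h3, h4, h5, h6, h7, h8, h9, h10, -, -, h13⟩ := H35Z.final
  refine ⟨fun K _ _ hK d hd => H35Q.critQ K hK d hd,
    fun M K _ _ _ _ _ _ hM hS d hd => H35Q.critRelQ M K ((baseF_iff M).1 hM) hS d hd, ⟨h3, h4⟩, h5, h6,
    h7, fun K₀ M _ _ _ _ _ _ hG ho hd hM => (baseF_iff M).2 (h8 K₀ M hG ho hd hM), h9, ?_⟩
  intro H _ _ k hH
  obtain ⟨K, i1, i2, i3, ⟨hT, hU, -⟩, hφ⟩ := (h13 H k hH).1 0
  obtain ⟨-, hg⟩ := h10 K ⟨K, i1, i2, i3, Algebra.id K, hT.1, hT.2, hU⟩
  refine ⟨K, i1, i2, i3, hT, ?_, hg, hφ⟩
  intro w h3
  have hwp := w.isPrime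
  have h3v : (3 : O) ∈ w.asIdeal.under O := by
    rw [Ideal.under_def, Ideal.mem_comap, map_ofNat]
    exact h3
  have hne : w.asIdeal.under O ≠ ⊥ := Ideal.IsIntegral.comap_ne_bot _ w.ne_bot
  exact hU w ⟨w.asIdeal.under O, inferInstance, hne⟩ rfl fun hgood => hgood.2.1 h3v

end Pool.Agent.Results.MP_f50388_nt.ThreePartExact
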